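import Pool.Agent.Work.MP_e487d8_al.Y.Mod.Chr
import Pool.Agent.Work.MP_e487d8_al.Bd.B01

/-! MP_e487d8_al: the shuffle product as a sum over shuffles; the character of a convolution
product. -/

set_option autoImplicit false

open scoped TensorProduct
open Pool.Agent.E487.Hopf

namespace Pool.Agent.KLS

section comb

variable {I : Type}

/-- first letter -/
def Shf.consMap (m n : ℕ) : Shf m (n + 1) ⊕ Shf (m + 1) n → Shf (m + 1) (n + 1)
  | Sum.inl w => ⟨false :: w.1, by
      rw [List.count_cons_self, List.count_cons_of_ne (by decide), w.2.1, w.2.2]; exact ⟨rfl, rfl⟩⟩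
  | Sum.inr w => ⟨true :: w.1, by
      rw [List.count_cons_self, List.count_cons_of_ne (by decide), w.2.1, w.2.2]; exact ⟨rfl, rfl⟩⟩

theorem Shf.consMap_bijective (m n : ℕ) : Function.Bijective (Shf.consMap m n) := by
  constructor
  · rintro (⟨w, hw⟩ | ⟨w, hw⟩) (⟨w', hw'⟩ | ⟨w', hw'⟩) h
    · have h1 := congrArg Subtype.val h
      simp only [Shf.consMap, List.cons.injEq, true_and] at h1
      subst h1; rfl
    · have h1 := congrArg Subtype.val h
      simp [Shf.consMap] at h1
    · have h1 := congrArg Subtype.val h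
      simp [Shf.consMap] at h1
    · have h1 := congrArg Subtype.val h
      simp only [Shf.consMap, List.cons.injEq, true_and] at h1
      subst h1; rfl
  · rintro ⟨w, hw⟩
    cases w with
    | nil => simp at hw
    | cons b w =>
      cases b with
      | false =>
        rw [List.count_cons_self, List.count_cons_of_ne (by decide)] at hw
        exact ⟨Sum.inl ⟨w, by omega⟩, rfl⟩
      | true =>
        rw [List.count_cons_self, List.count_cons_of_ne (by decide)] at hw
        exact ⟨Sum.inr ⟨w, by omega⟩, rfl⟩

theorem Shf.sum_cons {R : Type} [AddCommMonoid R] (m n : ℕ) (F : List Bool → R) :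
    ∑ w : Shf (m + 1) (n + 1), F w.1 =
      ∑ w : Shf m (n + 1), F (false :: w.1) + ∑ w : Shf (m + 1) n, F (true :: w.1) := by
  rw [← (Equiv.ofBijective _ (Shf.consMap_bijective m n)).sum_comp, Fintype.sum_sum_type]
  rfl

theorem Shf.sum_zero_left {R : Type} [AddCommMonoid R] (n : ℕ) (F : List Bool → R) :
    ∑ w : Shf 0 n, F w.1 = F (List.replicate n true) := by
  have h := Fintype.card_eq_one_iff.1 (Shf.card_zero_left n)
  obtain ⟨x, hx⟩ := h
  rw [Fintype.sum_eq_single x (fun y hy => absurd (hx y) hy), ← hx (Shf.one 0 n)]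
  rfl

theorem Shf.sum_zero_right {R : Type} [AddCommMonoid R] (m : ℕ) (F : List Bool → R) :
    ∑ w : Shf m 0, F w.1 = F (List.replicate m false) := by
  have h := Fintype.card_eq_one_iff.1 (Shf.card_zero_right m)
  obtain ⟨x, hx⟩ := h
  rw [Fintype.sum_eq_single x (fun y hy => absurd (hx y) hy), ← hx (Shf.one m 0)]
  change F (List.replicate m false ++ []) = _
  rw [List.append_nil]

theorem sel_replicate_self (b : Bool) (κ : List I) :
    sel b (List.replicate κ.length b) κ = κ := by
  induction κ with
  | nil => rfl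
  | cons i κ ih => rw [List.length_cons, List.replicate_succ, sel, if_pos rfl, ih]

theorem sel_replicate_ne {b c : Bool} (h : c ≠ b) (κ : List I) (n : ℕ) :
    sel b (List.replicate n c) κ = [] := by
  induction n generalizing κ with
  | zero => rfl
  | succ n ih =>
    cases κ with
    | nil => rfl
    | cons i κ => rw [List.replicate_succ, sel, if_neg h, ih]

theorem sm_len_zero (κ : List I) (f g : Sh I ℚ) (hf : ∀ ν : List I, ν.length ≠ 0 → f ν = 0) :
    Sh.sm κ f g = f [] * g κ := by
  induction κ generalizing f g with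
  | nil => rfl
  | cons i κ ih =>
    have h0 : Sh.L i f = 0 := by
      apply Sh.ext'
      intro w
      exact hf (i :: w) (by simp)
    rw [Sh.sm, h0, Sh.sm_zero_left, zero_add, ih f _ hf]
    rfl

/-- the shuffle product as a sum over shuffles -/
theorem sm_eq_sum (κ : List I) (m n : ℕ) (f g : Sh I ℚ)
    (hf : ∀ ν : List I, ν.length ≠ m → f ν = 0) (hg : ∀ ν : List I, ν.length ≠ n → g ν = 0)
    (h : κ.length = m + n) :
    Sh.sm κ f g = ∑ w : Shf m n, f (sel false w.1 κ) * g (sel true w.1 κ) := by
  induction κ generalizing m n f g with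
  | nil =>
    obtain ⟨rfl, rfl⟩ : m = 0 ∧ n = 0 := by
      rw [List.length_nil] at h
      omega
    rw [Shf.sum_zero_left 0 (fun w => f (sel false w []) * g (sel true w []))]
    rfl
  | cons i κ ih =>
    rcases m with _ | m
    · rw [Nat.zero_add] at h
      rw [Shf.sum_zero_left n (fun w => f (sel false w (i :: κ)) * g (sel true w (i :: κ))),
        sm_len_zero _ f g hf, ← h, sel_replicate_self, sel_replicate_ne (by decide)]
    rcases n with _ | n
    · rw [Nat.add_zero] at h
      rw [Shf.sum_zero_right (m + 1) (fun w => f (sel false w (i :: κ)) * g (sel true w (i :: κ))),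
        Sh.sm_comm, sm_len_zero _ g f hg, ← h, sel_replicate_self, sel_replicate_ne (by decide),
        mul_comm]
    rw [List.length_cons] at h
    rw [Shf.sum_cons m n (fun w => f (sel false w (i :: κ)) * g (sel true w (i :: κ))), Sh.sm]
    rw [ih m (n + 1) (Sh.L i f) g (fun ν hν => hf _ (by rw [List.length_cons]; omega)) hg
      (by omega), ih (m + 1) n f (Sh.L i g) hf (fun ν hν => hg _ (by rw [List.length_cons]; omega))
      (by omega)]
    congr 1

theorem sm_eq_zero (κ : List I) (m n : ℕ) (f g : Sh I ℚ)
    (hf : ∀ ν : List I, ν.length ≠ m → f ν = 0) (hg : ∀ ν : List I, ν.length ≠ n → g ν = 0)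
    (h : κ.length ≠ m + n) : Sh.sm κ f g = 0 := by
  induction κ generalizing m n f g with
  | nil =>
    rw [Sh.sm]
    by_cases hm : m = 0
    · rw [hg [] (by rw [List.length_nil] at h ⊢; omega), mul_zero]
    · rw [hf [] (by rw [List.length_nil]; omega), zero_mul]
  | cons i κ ih =>
    rw [Sh.sm]
    rw [List.length_cons] at h
    have h1 : Sh.sm κ (Sh.L i f) g = 0 := by
      rcases m with _ | m
      · have h0 : Sh.L i f = 0 := by
          apply Sh.ext'
          intro w
          exact hf (i :: w) (by simp)
        rw [h0, Sh.sm_zero_left]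
      · exact ih m n _ g (fun ν hν => hf _ (by rw [List.length_cons]; omega)) hg (by omega)
    have h2 : Sh.sm κ f (Sh.L i g) = 0 := by
      rcases n with _ | n
      · have h0 : Sh.L i g = 0 := by
          apply Sh.ext'
          intro w
          exact hg (i :: w) (by simp)
        rw [h0, Sh.sm_comm, Sh.sm_zero_left]
      · exact ih m n f _ hf (fun ν hν => hg _ (by rw [List.length_cons]; omega)) (by omega)
    rw [h1, h2, add_zero]

end comb

variable {K I : Type} [Field K] [Fintype I] [DecidableEq I] {D : Datum K I}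

/-- the character as an element of the shuffle ring -/
noncomputable def chrQ (D : Datum K I) (n : ℕ) (M : Type) [AddCommGroup M] [Module K M]
    [Module (KLRAlg D) M] [IsScalarTower K (KLRAlg D) M] : Sh I ℚ :=
  fun w => (chr D n M w : ℚ)

theorem chrQ_apply {n : ℕ} {M : Type} [AddCommGroup M] [Module K M]
    [Module (KLRAlg D) M] [IsScalarTower K (KLRAlg D) M] (w : List I) :
    chrQ D n M w = (chr D n M w : ℚ) := rfl

theorem chrQ_eq_zero {n : ℕ} {M : Type} [AddCommGroup M] [Module K M]
    [Module (KLRAlg D) M] [IsScalarTower K (KLRAlg D) M] (w : List I) (h : w.length ≠ n) :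
    chrQ D n M w = 0 := by
  rw [chrQ_apply, chr, if_neg h, Nat.cast_zero]

/-- the character of a convolution product is the shuffle product of the characters -/
theorem Conv.chrQ_eq {m n : ℕ} {M N : Type}
    [AddCommGroup M] [Module K M] [Module (KLRAlg D) M] [IsScalarTower K (KLRAlg D) M]
    [AddCommGroup N] [Module K N] [Module (KLRAlg D) N] [IsScalarTower K (KLRAlg D) N]
    (hb : S_basis D) (hM : IsStrand D m M) (hN : IsStrand D n N)
    [FiniteDimensional K M] [FiniteDimensional K N] :
    chrQ D (m + n) (Conv D m M N) = chrQ D m M * chrQ D n N := by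
  apply Sh.ext'
  intro κ
  rw [Sh.mul_apply]
  have hf : ∀ ν : List I, ν.length ≠ m → chrQ D m M ν = 0 := fun ν hν => chrQ_eq_zero ν hν
  have hg : ∀ ν : List I, ν.length ≠ n → chrQ D n N ν = 0 := fun ν hν => chrQ_eq_zero ν hν
  by_cases h : κ.length = m + n
  · rw [sm_eq_sum κ m n _ _ hf hg h, chrQ_apply, chr, if_pos h, Conv.finrank_wordSp hb hM hN κ h,
      Nat.cast_sum]
    refine Finset.sum_congr rfl fun w _ => ?_
    have h1 : w.1.length = κ.length := by rw [w.length_eq, h]
    rw [Nat.cast_mul, chrQ_apply, chrQ_apply, chr, chr,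
      if_pos (by rw [length_sel _ _ _ h1, w.2.1]),
      if_pos (by rw [length_sel _ _ _ h1, w.2.2])]
  · rw [sm_eq_zero κ m n _ _ hf hg h, chrQ_eq_zero κ h]

end Pool.Agent.KLS
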